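import Pool.Agent.H241.PST.Mod

/-!
Right ideals: elements supported on a subtree present the ideal they generate.
-/

set_option autoImplicit false
set_option linter.unusedSectionVars false

namespace Pool.Agent.H241.PST

open MulOpposite

noncomputable section

variable {K : Type*} [Field K] {B : Type*}

section ideal

variable (I : Submodule (MonoidAlgebra K (FreeGroup B))ᵐᵒᵖ (MonoidAlgebra K (FreeGroup B)))

/-- coefficient functional on a right ideal -/
def cf (x : FreeGroup B) : I →ₗ[K] K where
  toFun v := (v : MonoidAlgebra K (FreeGroup B)).coeff x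
  map_add' v w := by simp
  map_smul' k v := by simp

lemma cf_apply (x : FreeGroup B) (v : I) : cf I x v = (v : MonoidAlgebra K (FreeGroup B)).coeff x :=
  rfl

lemma cf_rt (x g : FreeGroup B) (v : I) : cf I x (rt (K := K) g v) = cf I (x * g⁻¹) v := by
  rw [cf_apply, cf_apply, rt_apply]
  rw [Submodule.coe_smul, MulOpposite.smul_eq_mul_unop, unop_op, MonoidAlgebra.of_apply,
    MonoidAlgebra.coeff_mul_single_apply, mul_one]

/-- The elements of `I` supported on `S`. -/
def VS (S : Set (FreeGroup B)) : Submodule K I where
  carrier := {v | ∀ g, cf I g v ≠ 0 → g ∈ S}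
  zero_mem' := by intro g hg; simp at hg
  add_mem' := by
    intro v w hv hw g hg
    by_contra hgS
    apply hg
    rw [map_add, not_not.mp (mt (hv g) hgS), not_not.mp (mt (hw g) hgS), add_zero]
  smul_mem' := by
    intro k v hv g hg
    apply hv g
    intro h
    apply hg
    rw [map_smul, h, smul_zero]

lemma mem_VS {S : Set (FreeGroup B)} {v : I} : v ∈ VS I S ↔ ∀ g, cf I g v ≠ 0 → g ∈ S := Iff.rfl

lemma VS_mono {S S' : Set (FreeGroup B)} (h : S ⊆ S') : VS I S ≤ VS I S' :=
  fun _ hv g hg => h (hv g hg)

lemma ext_cf {v w : I} (h : ∀ g, cf I g v = cf I g w) : v = w := by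
  apply Subtype.ext
  ext g
  exact h g

variable [DecidableEq B]

/-- If `S` is connected then the elements of `I` supported on `S` present the ideal they
generate. -/
theorem pres_VS {S : Set (FreeGroup B)} (hS : Conn S) : Pres B (VS I S) := by
  classical
  have key : ∀ (n : ℕ) (φ : FreeGroup B →₀ I), (∑ g ∈ φ.support, g.norm) = n →
      (∀ g, φ g ∈ VS I S) → ev (K := K) φ = 0 → φ ∈ Rel (VS I S) := by
    intro n
    induction n using Nat.strong_induction_on with
    | _ n ih =>
      intro φ hn hφ hev
      by_cases h0 : φ = 0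
      · rw [h0]; exact Submodule.zero_mem _
      have hne : φ.support.Nonempty := Finsupp.support_nonempty_iff.mpr h0
      obtain ⟨g, hg, hmax⟩ := Finset.exists_max_image φ.support (fun g => g.norm) hne
      rcases hw : g.toWord with _ | ⟨s, u⟩
      · -- all norms are zero
        exfalso
        have hg1 : g = 1 := FreeGroup.toWord_eq_nil_iff.mp hw
        have hsup : ∀ x, φ x ≠ 0 → x = 1 := by
          intro x hx
          have := hmax x (Finsupp.mem_support_iff.mpr hx)
          rw [hg1, FreeGroup.norm_one] at this
          exact FreeGroup.norm_eq_zero.mp (Nat.le_zero.mp this)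
        have hφs : φ = Finsupp.single 1 (φ 1) := by
          ext1 x
          rw [Finsupp.single_apply]
          split_ifs with hx
          · rw [hx]
          · by_contra hc
            exact hx (hsup x hc).symm
        rw [hφs, ev_single, rt_one] at hev
        apply Finsupp.mem_support_iff.mp hg
        rw [hg1, hev]
      · have hconv : rt (K := K) (ltr s) (φ g) ∈ VS I S := by
          intro h hh
          rw [cf_rt] at hh
          set t := h * (ltr s)⁻¹ with ht
          have htS : t ∈ S := hφ g t hh
          have hcoef : cf I (t * g) (ev (K := K) φ) = 0 := by rw [hev, map_zero]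
          rw [ev_apply, Finsupp.sum, map_sum] at hcoef
          obtain ⟨g', hg', hg'ne, hg'c⟩ : ∃ g' ∈ φ.support, g' ≠ g ∧
              cf I (t * g) (rt (K := K) g' (φ g')) ≠ 0 := by
            by_contra hcon
            push Not at hcon
            rw [Finset.sum_eq_single_of_mem g hg hcon, cf_rt] at hcoef
            apply hh
            rw [← hcoef]
            congr 2
            group
          rw [cf_rt] at hg'c
          have ht' := hφ g' _ hg'c
          have hhead : (t⁻¹ * (t * g * g'⁻¹)).toWord.head? = some s := by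
            have e : t⁻¹ * (t * g * g'⁻¹) = g * g'⁻¹ := by group
            rw [e]
            exact head_diff hw hg'ne (hmax g' hg')
          have := hS.convex htS ht' hhead
          rw [ht] at this
          have e : h * (ltr s)⁻¹ * ltr s = h := by group
          rwa [e] at this
        set g1 : FreeGroup B := (ltr s)⁻¹ * g with hg1
        have hgg1 : ltr s * g1 = g := by rw [hg1]; group
        have hnorm : g1.norm < g.norm := by
          have e : g1 = FreeGroup.mk u := by
            have : g = ltr s * FreeGroup.mk u := by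
              rw [ltr, FreeGroup.mul_mk, ← FreeGroup.mk_toWord (x := g), hw]; rfl
            rw [hg1, this]; group
          have h2 : g.norm = u.length + 1 := by rw [FreeGroup.norm, hw]; rfl
          have h3 : g1.norm ≤ u.length := by rw [e]; exact FreeGroup.norm_mk_le
          omega
        have hg1g : g1 ≠ g := fun h => by rw [h] at hnorm; exact lt_irrefl _ hnorm
        set gen : FreeGroup B →₀ I := Finsupp.single (ltr s * g1) (φ g) -
          Finsupp.single g1 (rt (K := K) (ltr s) (φ g)) with hgen
        have hgenR : gen ∈ Rel (VS I S) := rel_gen s g1 (φ g) (hφ g) hconv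
        have hsub : (φ - gen).support ⊆ insert g1 (φ.support.erase g) := by
          intro x hx
          rw [Finsupp.mem_support_iff, Finsupp.coe_sub, Pi.sub_apply, hgen, hgg1,
            Finsupp.coe_sub, Pi.sub_apply, Finsupp.single_apply, Finsupp.single_apply] at hx
          rw [Finset.mem_insert, Finset.mem_erase, Finsupp.mem_support_iff]
          by_cases hx1 : x = g1
          · left; exact hx1
          · right
            rw [if_neg (show ¬ g1 = x from fun h => hx1 h.symm)] at hx
            by_cases hxg : x = g
            · exfalso; apply hx; rw [if_pos hxg.symm, hxg]; simp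
            · rw [if_neg (show ¬ g = x from fun h => hxg h.symm)] at hx
              exact ⟨hxg, by simpa using hx⟩
        have hlt : (∑ x ∈ (φ - gen).support, x.norm) < n := by
          calc (∑ x ∈ (φ - gen).support, x.norm)
              ≤ ∑ x ∈ insert g1 (φ.support.erase g), x.norm :=
                Finset.sum_le_sum_of_subset hsub
            _ ≤ g1.norm + ∑ x ∈ φ.support.erase g, x.norm := by
                by_cases hm : g1 ∈ φ.support.erase g
                · rw [Finset.insert_eq_of_mem hm]; exact Nat.le_add_left _ _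
                · rw [Finset.sum_insert hm]
            _ < g.norm + ∑ x ∈ φ.support.erase g, x.norm := by omega
            _ = n := by rw [← hn, Finset.add_sum_erase _ _ hg]
        have hval : ∀ x, (φ - gen) x ∈ VS I S := by
          intro x
          rw [Finsupp.coe_sub, Pi.sub_apply]
          exact (VS I S).sub_mem (hφ x) (rel_values hgenR x)
        have hev' : ev (K := K) (φ - gen) = 0 := by
          rw [map_sub, hev, hgen, map_sub, ev_single, ev_single, rt_rt, sub_self, sub_zero]
        have := ih _ hlt (φ - gen) rfl hval hev'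
        have e : φ = (φ - gen) + gen := by abel
        rw [e]
        exact Submodule.add_mem _ this hgenR
  intro φ hφ hev
  exact key _ φ rfl hφ hev

end ideal

section map

variable {M : Type*} [AddCommGroup M] [Module (MonoidAlgebra K (FreeGroup B))ᵐᵒᵖ M] [Module K M]
  [IsScalarTower K (MonoidAlgebra K (FreeGroup B))ᵐᵒᵖ M]
variable {N : Type*} [AddCommGroup N] [Module (MonoidAlgebra K (FreeGroup B))ᵐᵒᵖ N] [Module K N]
  [IsScalarTower K (MonoidAlgebra K (FreeGroup B))ᵐᵒᵖ N]

lemma map_rt (π : M →ₗ[(MonoidAlgebra K (FreeGroup B))ᵐᵒᵖ] N) (g : FreeGroup B) (m : M) :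
    π (rt (K := K) g m) = rt (K := K) g (π m) := by
  rw [rt_apply, rt_apply, map_smul]

/-- Presented subspaces are preserved by killing one of their elements. -/
theorem pres_map (π : M →ₗ[(MonoidAlgebra K (FreeGroup B))ᵐᵒᵖ] N) {V : Submodule K M}
    (hV : Pres B V) {f : M} (hf : f ∈ V)
    (hker : ∀ x, π x = 0 ↔ ∃ a : (MonoidAlgebra K (FreeGroup B))ᵐᵒᵖ, x = a • f) :
    Pres B (V.map (π.restrictScalars K)) := by
  classical
  intro φ hφ hev
  -- lifts
  have hr : ∃ r : N → M, r 0 = 0 ∧ ∀ y ∈ V.map (π.restrictScalars K), r y ∈ V ∧ π (r y) = y := by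
    refine ⟨fun y => if h : y ≠ 0 ∧ ∃ v ∈ V, π v = y then h.2.choose else 0, ?_, ?_⟩
    · simp
    · intro y hy
      by_cases h0 : y = 0
      · subst h0
        simp only [ne_eq, not_true_eq_false, false_and, dite_false]
        exact ⟨V.zero_mem, map_zero _⟩
      · obtain ⟨v, hv, hvy⟩ := Submodule.mem_map.mp hy
        have h : y ≠ 0 ∧ ∃ v ∈ V, π v = y := ⟨h0, v, hv, hvy⟩
        simp only [dif_pos h]
        exact ⟨h.2.choose_spec.1, h.2.choose_spec.2⟩
  obtain ⟨r, hr0, hr⟩ := hr
  set ψ : FreeGroup B →₀ M := φ.mapRange r hr0 with hψ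
  have hψV : ∀ g, ψ g ∈ V := fun g => (hr _ (hφ g)).1
  have hψπ : ∀ g, π (ψ g) = φ g := fun g => (hr _ (hφ g)).2
  have hevπ : ∀ χ : FreeGroup B →₀ M,
      π (ev (K := K) χ) = ev (K := K) (χ.mapRange π (map_zero π)) := by
    intro χ
    rw [ev_apply, ev_apply, Finsupp.sum_mapRange_index (by intro g; simp), Finsupp.sum, map_sum]
    apply Finset.sum_congr rfl
    intro g _
    exact map_rt π g _
  have hψφ : ψ.mapRange π (map_zero π) = φ := by
    ext g
    rw [Finsupp.mapRange_apply]
    exact hψπ g
  have h1 : π (ev (K := K) ψ) = 0 := by rw [hevπ, hψφ, hev]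
  obtain ⟨a, ha⟩ := (hker _).1 h1
  have h2 : ψ - spr a f ∈ Rel V := by
    apply hV
    · intro g
      rw [Finsupp.coe_sub, Pi.sub_apply, spr_apply]
      exact V.sub_mem (hψV g) (V.smul_mem _ hf)
    · rw [map_sub, ev_spr, ha, sub_self]
  have hπf : π f = 0 := (hker f).2 ⟨1, (one_smul _ _).symm⟩
  -- push forward
  have hpush : ∀ χ : FreeGroup B →₀ M, χ ∈ Rel V → χ.mapRange π (map_zero π) ∈ Rel (V.map (π.restrictScalars K)) := by
    intro χ hχ
    unfold Rel at hχ
    induction hχ using Submodule.span_induction with
    | zero => rw [Finsupp.mapRange_zero]; exact Submodule.zero_mem _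
    | add x y _ _ hx hy =>
      rw [Finsupp.mapRange_add (map_add π)]; exact Submodule.add_mem _ hx hy
    | smul k x _ hx =>
      have : (k • x).mapRange π (map_zero π) = k • x.mapRange π (map_zero π) := by
        ext g
        simp only [Finsupp.mapRange_apply, Finsupp.coe_smul, Pi.smul_apply]
        exact (π.restrictScalars K).map_smul k (x g)
      rw [this]
      exact Submodule.smul_mem _ _ hx
    | mem x hx =>
      obtain ⟨s, g, w, hw, hws, rfl⟩ := hx
      have e : (Finsupp.single (ltr s * g) w - Finsupp.single g (rt (K := K) (ltr s) w)).mapRange π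
          (map_zero π) = Finsupp.single (ltr s * g) (π w) -
            Finsupp.single g (rt (K := K) (ltr s) (π w)) := by
        rw [Finsupp.mapRange_sub (map_sub π), Finsupp.mapRange_single, Finsupp.mapRange_single,
          map_rt]
      rw [e]
      apply rel_gen
      · exact Submodule.mem_map_of_mem (f := π.restrictScalars K) hw
      · rw [← map_rt]
        exact Submodule.mem_map_of_mem (f := π.restrictScalars K) hws
  have h3 := hpush _ h2
  have e : (ψ - spr a f).mapRange π (map_zero π) = φ := by
    rw [Finsupp.mapRange_sub (map_sub π), hψφ]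
    have : (spr a f).mapRange π (map_zero π) = 0 := by
      ext g
      rw [Finsupp.mapRange_apply, spr_apply]
      have := (π.restrictScalars K).map_smul (a.unop.coeff g) f
      rw [LinearMap.restrictScalars_apply, LinearMap.restrictScalars_apply, hπf, smul_zero] at this
      rw [this]; rfl
    rw [this, sub_zero]
  rwa [e] at h3

end map

section fd

variable {E : Type*} [AddCommGroup E] [Module (MonoidAlgebra K (FreeGroup B))ᵐᵒᵖ E] [Module K E]
  [IsScalarTower K (MonoidAlgebra K (FreeGroup B))ᵐᵒᵖ E]

/-- coordinate functional for a basis of a free right module -/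
def bc {ι : Type*} (b : Module.Basis ι (MonoidAlgebra K (FreeGroup B))ᵐᵒᵖ E) (i : ι)
    (g : FreeGroup B) : E →ₗ[K] K where
  toFun v := (b.repr v i).unop.coeff g
  map_add' v w := by simp
  map_smul' k v := by
    have : b.repr (k • v) = k • b.repr v := (b.repr.toLinearMap.restrictScalars K).map_smul k v
    rw [this]
    simp

lemma bc_apply {ι : Type*} (b : Module.Basis ι (MonoidAlgebra K (FreeGroup B))ᵐᵒᵖ E) (i : ι)
    (g : FreeGroup B) (v : E) : bc b i g v = (b.repr v i).unop.coeff g := rfl

lemma bc_rt {ι : Type*} (b : Module.Basis ι (MonoidAlgebra K (FreeGroup B))ᵐᵒᵖ E) (i : ι)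
    (g h : FreeGroup B) (v : E) : bc b i g (rt (K := K) h v) = bc b i (g * h⁻¹) v := by
  rw [bc_apply, bc_apply, rt_apply, map_smul, Finsupp.smul_apply, smul_eq_mul, unop_mul, unop_op,
    MonoidAlgebra.of_apply, MonoidAlgebra.coeff_mul_single_apply, mul_one]

/-- the span after adding back a vector outside the hyperplane -/
lemma span_insert_hyp {W : Submodule K E} {c : E →ₗ[K] K} {w : E} (hw : w ∈ W) (hcw : c w ≠ 0)
    {Y : Set E}
    (hY : Submodule.span (MonoidAlgebra K (FreeGroup B))ᵐᵒᵖ Y =
      Submodule.span (MonoidAlgebra K (FreeGroup B))ᵐᵒᵖ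
        ((W ⊓ LinearMap.ker c : Submodule K E) : Set E)) :
    Submodule.span (MonoidAlgebra K (FreeGroup B))ᵐᵒᵖ (insert w Y) =
      Submodule.span (MonoidAlgebra K (FreeGroup B))ᵐᵒᵖ (W : Set E) := by
  rw [Submodule.span_insert, hY]
  apply le_antisymm
  · apply sup_le
    · rw [Submodule.span_le]
      intro x hx
      rw [Set.mem_singleton_iff] at hx
      rw [hx]
      exact Submodule.subset_span hw
    · exact Submodule.span_mono (fun x hx => hx.1)
  · rw [Submodule.span_le]
    intro x hx
    have hx' : x - (c x * (c w)⁻¹) • w ∈ (W ⊓ LinearMap.ker c : Submodule K E) := by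
      rw [Submodule.mem_inf, LinearMap.mem_ker]
      refine ⟨W.sub_mem hx (W.smul_mem _ hw), ?_⟩
      rw [map_sub, map_smul, smul_eq_mul, mul_assoc, inv_mul_cancel₀ hcw, mul_one, sub_self]
    have e : x = (c x * (c w)⁻¹) • w + (x - (c x * (c w)⁻¹) • w) := by abel
    rw [e]
    apply Submodule.add_mem
    · apply Submodule.mem_sup_left
      have e2 : (c x * (c w)⁻¹) • w =
          ((c x * (c w)⁻¹) • (1 : (MonoidAlgebra K (FreeGroup B))ᵐᵒᵖ)) • w := by
        rw [smul_assoc, one_smul]
      rw [e2]
      exact Submodule.smul_mem _ _ (Submodule.subset_span rfl)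
    · exact Submodule.mem_sup_right (Submodule.subset_span hx')

variable [DecidableEq B]

/-- A finite-dimensional presented subspace of a free module contains a basis of the
submodule it generates. -/
theorem fd {ι : Type*} (b : Module.Basis ι (MonoidAlgebra K (FreeGroup B))ᵐᵒᵖ E) :
    ∀ (n : ℕ) (W : Submodule K E), FiniteDimensional K W → Module.finrank K W = n → Pres B W →
      ∃ Y : Set E, Y ⊆ W ∧ LinearIndepOn (MonoidAlgebra K (FreeGroup B))ᵐᵒᵖ id Y ∧
        Submodule.span (MonoidAlgebra K (FreeGroup B))ᵐᵒᵖ Y =
          Submodule.span (MonoidAlgebra K (FreeGroup B))ᵐᵒᵖ (W : Set E) := by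
  classical
  intro n
  induction n using Nat.strong_induction_on with
  | _ n ih =>
    intro W hfd hn hP
    by_cases hW : W = ⊥
    · refine ⟨∅, Set.empty_subset _, linearIndepOn_empty _ _, ?_⟩
      rw [hW]
      simp
    -- the set of positions
    set D : Set (ι × FreeGroup B) := {p | ∃ w ∈ W, bc b p.1 p.2 w ≠ 0} with hD
    have hfin1 : ∀ w : E, {p : ι × FreeGroup B | bc b p.1 p.2 w ≠ 0}.Finite := by
      intro w
      apply Set.Finite.subset ((b.repr w).support.finite_toSet.biUnion
        (t := fun i => (fun g => (i, g)) '' ((b.repr w i).unop.coeff.support : Set (FreeGroup B)))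
        (fun i _ => (Finset.finite_toSet _).image _))
      rintro ⟨i, g⟩ hp
      rw [Set.mem_iUnion₂]
      have hp' : (b.repr w i).unop.coeff g ≠ 0 := hp
      refine ⟨i, ?_, g, ?_, rfl⟩
      · rw [Finset.mem_coe, Finsupp.mem_support_iff]
        intro h
        apply hp'
        rw [h]; rfl
      · rw [Finset.mem_coe, Finsupp.mem_support_iff]
        exact hp'
    have hDfin : D.Finite := by
      obtain ⟨t, ht⟩ := (Submodule.fg_iff_finiteDimensional W).2 hfd
      apply Set.Finite.subset (t.finite_toSet.biUnion (fun w _ => hfin1 w))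
      rintro ⟨i, g⟩ ⟨w, hw, hc⟩
      by_contra hcon
      apply hc
      have hz : ∀ v ∈ t, bc b i g v = 0 := by
        intro v hv
        by_contra h
        apply hcon
        rw [Set.mem_iUnion₂]
        exact ⟨v, hv, h⟩
      have : W ≤ LinearMap.ker (bc b i g) := by
        rw [← ht, Submodule.span_le]
        intro v hv
        exact hz v hv
      exact this hw
    have hDne : D.Nonempty := by
      obtain ⟨w, hw, hw0⟩ := Submodule.exists_mem_ne_zero_of_ne_bot hW
      have h1 : b.repr w ≠ 0 := fun h => hw0 (by simpa using h)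
      obtain ⟨i, hi⟩ := Finsupp.ne_iff.mp h1
      have h2 : (b.repr w i).unop.coeff ≠ 0 := by
        intro h
        apply hi
        rw [MonoidAlgebra.coeff_eq_zero] at h
        exact unop_injective h
      obtain ⟨g, hg⟩ := Finsupp.ne_iff.mp h2
      exact ⟨(i, g), w, hw, hg⟩
    obtain ⟨⟨i, g⟩, ⟨w, hw, hcw⟩, hmax⟩ := Set.exists_max_image D (fun p => p.2.norm) hDfin hDne
    have hstep := step hP (bc b i g) {s | (g * (ltr s)⁻¹).norm ≤ g.norm} (by
        intro s hs s' hs'
        have h1 : (g * ltr (linv s)).norm ≤ g.norm := by rw [ltr_linv]; exact hs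
        have h2 : (g * ltr (linv s')).norm ≤ g.norm := by rw [ltr_linv]; exact hs'
        have := congrArg linv (unique_short h1 h2)
        simpa using this) (by
        intro s v hv hvs hc
        rw [bc_rt] at hc
        exact hmax (i, g * (ltr s)⁻¹) ⟨v, hv, hc⟩)
    obtain ⟨hPH, hor⟩ := hstep
    have hlt : W ⊓ LinearMap.ker (bc b i g) < W := by
      refine lt_of_le_of_ne inf_le_left ?_
      intro h
      have : w ∈ W ⊓ LinearMap.ker (bc b i g) := by rw [h]; exact hw
      exact hcw this.2
    have hfr : Module.finrank K (W ⊓ LinearMap.ker (bc b i g) : Submodule K E) < n := by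
      rw [← hn]; exact Submodule.finrank_lt_finrank_of_lt hlt
    obtain ⟨Y, hYH, hYi, hYs⟩ := ih _ hfr (W ⊓ LinearMap.ker (bc b i g)) inferInstance rfl hPH
    rcases hor with h | h
    · exact ⟨Y, fun y hy => (hYH hy).1, hYi, by rw [hYs, h]⟩
    · refine ⟨insert w Y, ?_, ?_, ?_⟩
      · intro y hy
        rcases hy with rfl | hy
        · exact hw
        · exact (hYH hy).1
      · apply hYi.id_insert'
        intro a ha
        rw [hYs] at ha
        exact h w hw hcw a ha
      · exact span_insert_hyp hw hcw hYs

end fd

end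

end Pool.Agent.H241.PST
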