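import Pool.Agent.H241.PST.Ideal

/-!
Main argument for `MP_1698af_al`.
-/

set_option autoImplicit false
set_option linter.unusedSectionVars false

namespace Pool.Agent.H241.PST

open MulOpposite

noncomputable section

variable {K : Type*} [Field K] {B : Type*} [DecidableEq B]
variable (I : Submodule (MonoidAlgebra K (FreeGroup B))ᵐᵒᵖ (MonoidAlgebra K (FreeGroup B)))

lemma VS_finite {S : Set (FreeGroup B)} (hS : S.Finite) : FiniteDimensional K (VS I S) := by
  have : Finite S := hS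
  let L : VS I S →ₗ[K] (S → K) := LinearMap.pi (fun g => (cf I g.1).comp (VS I S).subtype)
  refine FiniteDimensional.of_injective (V₂ := S → K) L ?_
  intro v w h
  apply Subtype.ext
  apply ext_cf
  intro g
  by_cases hg : g ∈ S
  · exact congrFun h ⟨g, hg⟩
  · have hv : cf I g v.1 = 0 := by
      by_contra hc; exact hg (v.2 g hc)
    have hw : cf I g w.1 = 0 := by
      by_contra hc; exact hg (w.2 g hc)
    rw [hv, hw]

/-- Step 1: a finite connected set containing the support of a primitive element. -/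
theorem step_one {T0 : Set (FreeGroup B)} (hT0 : Conn T0) (hfin : T0.Finite) {f : I}
    (hf : f ∈ VS I T0) {X : Set I} (hX : LinearIndepOn (MonoidAlgebra K (FreeGroup B))ᵐᵒᵖ id X)
    (hXs : Submodule.span (MonoidAlgebra K (FreeGroup B))ᵐᵒᵖ X = ⊤) (hfX : f ∈ X) :
    ∃ Y : Set I, f ∈ Y ∧ Y ⊆ VS I T0 ∧ LinearIndepOn (MonoidAlgebra K (FreeGroup B))ᵐᵒᵖ id Y ∧
      Submodule.span (MonoidAlgebra K (FreeGroup B))ᵐᵒᵖ Y = Submodule.span (MonoidAlgebra K (FreeGroup B))ᵐᵒᵖ (VS I T0 : Set I) := by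
  classical
  let b : Module.Basis X (MonoidAlgebra K (FreeGroup B))ᵐᵒᵖ I := Module.Basis.mk (v := fun x : X => (x : I)) hX (by
    rw [Subtype.range_coe, hXs])
  let x0 : X := ⟨f, hfX⟩
  have hb0 : b x0 = f := by simp [b, x0]
  let π : I →ₗ[(MonoidAlgebra K (FreeGroup B))ᵐᵒᵖ] I := LinearMap.id - (LinearMap.toSpanSingleton (MonoidAlgebra K (FreeGroup B))ᵐᵒᵖ I f).comp (b.coord x0)
  have hπ : ∀ x, π x = x - b.coord x0 x • f := fun x => rfl
  have hcf : b.coord x0 f = 1 := by
    rw [← hb0, Module.Basis.coord_apply, Module.Basis.repr_self, Finsupp.single_eq_same]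
  have hker : ∀ x, π x = 0 ↔ ∃ a : (MonoidAlgebra K (FreeGroup B))ᵐᵒᵖ, x = a • f := by
    intro x
    constructor
    · intro h
      exact ⟨b.coord x0 x, by rw [hπ] at h; exact sub_eq_zero.mp h⟩
    · rintro ⟨a, rfl⟩
      rw [hπ, map_smul, hcf, smul_eq_mul, mul_one, sub_self]
  have haf : ∀ a : (MonoidAlgebra K (FreeGroup B))ᵐᵒᵖ, a • f = 0 → a = 0 := by
    intro a ha
    have h := congrArg (b.coord x0) ha
    rwa [map_smul, hcf, smul_eq_mul, mul_one, map_zero] at h
  have := VS_finite I hfin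
  have hP := pres_map (K := K) π (pres_VS I hT0) hf hker
  obtain ⟨Y0, hY0W, hY0i, hY0s⟩ := fd b _ ((VS I T0).map (π.restrictScalars K))
    (Module.Finite.map _ _) rfl hP
  -- lifts
  have hr : ∀ y : I, ∃ v : I, y ∈ Y0 → (v ∈ VS I T0 ∧ π v = y) := by
    intro y
    by_cases hy : y ∈ Y0
    · obtain ⟨v, hv, hvy⟩ := Submodule.mem_map.mp (hY0W hy)
      exact ⟨v, fun _ => ⟨hv, hvy⟩⟩
    · exact ⟨0, fun h => absurd h hy⟩
  choose r hr using hr
  have hπr : LinearIndepOn (MonoidAlgebra K (FreeGroup B))ᵐᵒᵖ (fun y => π (r y)) Y0 := by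
    have h : Set.EqOn (fun y => π (r y)) id Y0 := fun y hy => (hr y hy).2
    exact (linearIndepOn_congr h).mpr hY0i
  have hri : LinearIndepOn (MonoidAlgebra K (FreeGroup B))ᵐᵒᵖ r Y0 := by
    apply LinearIndependent.of_comp π
    exact hπr
  have hri' : LinearIndepOn (MonoidAlgebra K (FreeGroup B))ᵐᵒᵖ id (r '' Y0) := hri.id_image
  refine ⟨insert f (r '' Y0), Set.mem_insert _ _, ?_, ?_, ?_⟩
  · intro y hy
    rcases hy with rfl | ⟨z, hz, rfl⟩
    · exact hf
    · exact (hr z hz).1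
  · apply hri'.id_insert'
    intro a ha
    apply haf
    obtain ⟨l, hl, hla⟩ := (Finsupp.mem_span_image_iff_linearCombination (MonoidAlgebra K (FreeGroup B))ᵐᵒᵖ).1 ha
    have h0 : π (a • f) = 0 := (hker _).2 ⟨a, rfl⟩
    have h1 : Finsupp.linearCombination (MonoidAlgebra K (FreeGroup B))ᵐᵒᵖ (fun y => π (r y)) l = 0 := by
      rw [← h0, ← hla, Finsupp.linearCombination_apply, Finsupp.linearCombination_apply,
        Finsupp.sum, Finsupp.sum, map_sum]
      apply Finset.sum_congr rfl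
      intro y _
      rw [map_smul]
    have h2 : l = 0 := (linearIndepOn_iff.mp hπr) l hl h1
    rw [← hla, h2, map_zero]
  · apply le_antisymm
    · rw [Submodule.span_le]
      intro y hy
      rcases hy with rfl | ⟨z, hz, rfl⟩
      · exact Submodule.subset_span hf
      · exact Submodule.subset_span (hr z hz).1
    · rw [Submodule.span_le]
      intro v hv
      have h1 : π v ∈ Submodule.span (MonoidAlgebra K (FreeGroup B))ᵐᵒᵖ Y0 := by
        rw [hY0s]
        exact Submodule.subset_span (Submodule.mem_map_of_mem (f := π.restrictScalars K) hv)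
      have h2 : Y0 = π '' (r '' Y0) := by
        rw [Set.image_image]
        ext y
        constructor
        · intro hy; exact ⟨y, hy, (hr y hy).2⟩
        · rintro ⟨z, hz, rfl⟩
          have : π (r z) = z := (hr z hz).2
          simp only [this]
          exact hz
      rw [h2, ← Submodule.map_span] at h1
      obtain ⟨z, hz, hzv⟩ := h1
      have h3 : π (v - z) = 0 := by rw [map_sub, hzv, sub_self]
      obtain ⟨a, ha⟩ := (hker _).1 h3
      have h4 : v = z + a • f := by rw [← ha]; abel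
      rw [h4]
      apply Submodule.add_mem
      · exact Submodule.span_mono (Set.subset_insert _ _) hz
      · exact Submodule.smul_mem _ _ (Submodule.subset_span (Set.mem_insert _ _))

/-- Step 2: adding one vertex. -/
theorem step_two {S : Set (FreeGroup B)} (hS : Conn S) {a t : FreeGroup B} (ha : a ∈ S)
    (ht : t ∉ S) (hat : Adj' a t) {Y : Set I} (hYS : Y ⊆ VS I S) (hYi : LinearIndepOn (MonoidAlgebra K (FreeGroup B))ᵐᵒᵖ id Y)
    (hYs : Submodule.span (MonoidAlgebra K (FreeGroup B))ᵐᵒᵖ Y = Submodule.span (MonoidAlgebra K (FreeGroup B))ᵐᵒᵖ (VS I S : Set I)) :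
    ∃ Y' : Set I, Y ⊆ Y' ∧ Y' ⊆ VS I (insert t S) ∧ LinearIndepOn (MonoidAlgebra K (FreeGroup B))ᵐᵒᵖ id Y' ∧
      Submodule.span (MonoidAlgebra K (FreeGroup B))ᵐᵒᵖ Y' = Submodule.span (MonoidAlgebra K (FreeGroup B))ᵐᵒᵖ (VS I (insert t S) : Set I) := by
  classical
  have hS' : Conn (insert t S) := hS.ins ha hat
  have hH : VS I (insert t S) ⊓ LinearMap.ker (cf I t) = VS I S := by
    apply le_antisymm
    · rintro v ⟨hv, hc⟩ g hg
      rcases hv g hg with h | h
      · exfalso; apply hg; rw [h]; exact hc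
      · exact h
    · intro v hv
      refine ⟨VS_mono I (Set.subset_insert _ _) hv, ?_⟩
      rw [SetLike.mem_coe, LinearMap.mem_ker]
      by_contra hc
      exact ht (hv t hc)
  have hstep := step (pres_VS I hS') (cf I t) {s | t * (ltr s)⁻¹ ∈ S} (by
      intro s hs s' hs'
      have h1 : t * ltr (linv s) ∈ S := by rw [ltr_linv]; exact hs
      have h2 : t * ltr (linv s') ∈ S := by rw [ltr_linv]; exact hs'
      have := congrArg linv (unique_nbr hS ht h1 h2)
      simpa using this) (by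
      intro s v hv hvs hc
      rw [cf_rt] at hc
      rcases hv _ hc with h | h
      · exfalso
        have h1 : (ltr s)⁻¹ = 1 := by
          have := congrArg (fun z => t⁻¹ * z) h
          simpa using this
        have h2 : (ltr s).toWord = [] := by
          rw [inv_eq_one.mp h1]; exact FreeGroup.toWord_one
        rw [ltr_toWord] at h2
        simp at h2
      · exact h)
  rw [hH] at hstep
  obtain ⟨_, hor⟩ := hstep
  have hmono : (VS I S : Set I) ⊆ VS I (insert t S) := VS_mono I (Set.subset_insert _ _)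
  by_cases hex : ∃ w ∈ VS I (insert t S), cf I t w ≠ 0
  · obtain ⟨w, hw, hcw⟩ := hex
    rcases hor with h | h
    · exact ⟨Y, subset_rfl, hYS.trans hmono, hYi, by rw [hYs, h]⟩
    · refine ⟨insert w Y, Set.subset_insert _ _, ?_, ?_, ?_⟩
      · intro y hy
        rcases hy with rfl | hy
        · exact hw
        · exact hmono (hYS hy)
      · apply hYi.id_insert'
        intro a' ha'
        rw [hYs] at ha'
        exact h w hw hcw a' ha'
      · apply span_insert_hyp (c := cf I t) hw hcw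
        rw [hH, hYs]
  · push Not at hex
    have heq : VS I (insert t S) = VS I S := by
      rw [← hH]
      apply le_antisymm
      · intro v hv
        exact ⟨hv, hex v hv⟩
      · exact inf_le_left
    refine ⟨Y, subset_rfl, hYS.trans hmono, hYi, by rw [hYs, heq]⟩

/-- a partial solution -/
structure PP (T T0 : Set (FreeGroup B)) (f : I) (S : Set (FreeGroup B)) (Y : Set I) : Prop where
  h1 : T0 ⊆ S
  h2 : S ⊆ T
  h3 : Conn S
  h4 : f ∈ Y
  h5 : Y ⊆ VS I S
  h6 : LinearIndepOn (MonoidAlgebra K (FreeGroup B))ᵐᵒᵖ id Y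
  h7 : Submodule.span (MonoidAlgebra K (FreeGroup B))ᵐᵒᵖ Y = Submodule.span (MonoidAlgebra K (FreeGroup B))ᵐᵒᵖ (VS I S : Set I)

theorem PP_union {T T0 : Set (FreeGroup B)} {f : I} (c : Set (Set (FreeGroup B) × Set I))
    (hc : ∀ p ∈ c, PP I T T0 f p.1 p.2) (y : Set (FreeGroup B) × Set I) (hy : y ∈ c)
    (hdir : ∀ p ∈ c, ∀ q ∈ c, ∃ r ∈ c, p.1 ⊆ r.1 ∧ q.1 ⊆ r.1 ∧ p.2 ⊆ r.2 ∧ q.2 ⊆ r.2) :
    PP I T T0 f (⋃ p ∈ c, p.1) (⋃ p ∈ c, p.2) := by
  classical
  have sub1 : ∀ p ∈ c, p.1 ⊆ ⋃ p ∈ c, p.1 := fun p hp =>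
    Set.subset_biUnion_of_mem (u := fun p : Set (FreeGroup B) × Set I => p.1) hp
  have sub2 : ∀ p ∈ c, p.2 ⊆ ⋃ p ∈ c, p.2 := fun p hp =>
    Set.subset_biUnion_of_mem (u := fun p : Set (FreeGroup B) × Set I => p.2) hp
  have hYV : (⋃ p ∈ c, p.2) ⊆ (VS I (⋃ p ∈ c, p.1) : Set I) := by
    intro v hv
    simp only [Set.mem_iUnion, exists_prop] at hv
    obtain ⟨p, hp, hvp⟩ := hv
    exact VS_mono I (sub1 p hp) ((hc p hp).h5 hvp)
  constructor
  · exact (hc y hy).h1.trans (sub1 y hy)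
  · exact Set.iUnion₂_subset (fun p hp => (hc p hp).h2)
  · intro x hx z hz
    simp only [Set.mem_iUnion, exists_prop] at hx hz
    obtain ⟨p, hp, hxp⟩ := hx
    obtain ⟨q, hq, hzq⟩ := hz
    obtain ⟨r, hr, hpr, hqr, _, _⟩ := hdir p hp q hq
    have := (hc r hr).h3 x (hpr hxp) z (hqr hzq)
    exact Relation.ReflTransGen.mono (r := fun a b => b ∈ r.1 ∧ Adj' a b)
      (p := fun a b => b ∈ (⋃ p ∈ c, p.1) ∧ Adj' a b)
      (fun a b hab => ⟨sub1 r hr hab.1, hab.2⟩) x z this
  · exact sub2 y hy (hc y hy).h4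
  · exact hYV
  · have e : (⋃ p ∈ c, p.2) = ⋃ p : c, p.1.2 := Set.biUnion_eq_iUnion c (fun p _ => p.2)
    rw [e]
    apply linearIndepOn_iUnion_of_directed
    · intro p q
      obtain ⟨r, hr, _, _, hpr, hqr⟩ := hdir p.1 p.2 q.1 q.2
      exact ⟨⟨r, hr⟩, hpr, hqr⟩
    · intro p
      exact (hc p.1 p.2).h6
  · apply le_antisymm
    · exact Submodule.span_mono hYV
    · rw [Submodule.span_le]
      intro v hv
      have hfs : ∀ F : Finset (FreeGroup B), (F : Set (FreeGroup B)) ⊆ (⋃ p ∈ c, p.1) →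
          ∃ p ∈ c, (F : Set (FreeGroup B)) ⊆ p.1 := by
        intro F
        induction F using Finset.induction_on with
        | empty => intro _; exact ⟨y, hy, by simp⟩
        | @insert x F _ ih =>
          intro hF
          obtain ⟨p, hp, hpF⟩ := ih (fun z hz => hF (by simp [hz]))
          have hx : x ∈ ⋃ p ∈ c, p.1 := hF (by simp)
          simp only [Set.mem_iUnion, exists_prop] at hx
          obtain ⟨q, hq, hxq⟩ := hx
          obtain ⟨r, hr, hpr, hqr, _, _⟩ := hdir p hp q hq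
          refine ⟨r, hr, ?_⟩
          intro z hz
          simp only [Finset.coe_insert, Set.mem_insert_iff] at hz
          rcases hz with rfl | hz
          · exact hqr hxq
          · exact hpr (hpF hz)
      obtain ⟨p, hp, hpv⟩ := hfs (v : MonoidAlgebra K (FreeGroup B)).coeff.support (by
        intro g hg
        apply hv g
        rw [Finset.mem_coe, Finsupp.mem_support_iff] at hg
        exact hg)
      have hvp : v ∈ VS I p.1 := by
        intro g hg
        apply hpv
        rw [Finset.mem_coe, Finsupp.mem_support_iff]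
        exact hg
      have h := Submodule.subset_span (R := (MonoidAlgebra K (FreeGroup B))ᵐᵒᵖ) (show v ∈ (VS I p.1 : Set I) from hvp)
      rw [← (hc p hp).h7] at h
      exact Submodule.span_mono (sub2 p hp) h

theorem main {T : Set (FreeGroup B)} (hT : Conn T)
    (hI : Submodule.span (MonoidAlgebra K (FreeGroup B))ᵐᵒᵖ (VS I T : Set I) = ⊤) {f : I} (hf : f ∈ VS I T)
    {X : Set I} (hX : LinearIndepOn (MonoidAlgebra K (FreeGroup B))ᵐᵒᵖ id X)
    (hXs : Submodule.span (MonoidAlgebra K (FreeGroup B))ᵐᵒᵖ X = ⊤) (hfX : f ∈ X) :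
    ∃ Y : Set I, f ∈ Y ∧ Y ⊆ VS I T ∧ LinearIndepOn (MonoidAlgebra K (FreeGroup B))ᵐᵒᵖ id Y ∧ Submodule.span (MonoidAlgebra K (FreeGroup B))ᵐᵒᵖ Y = ⊤ := by
  classical
  -- `f` is not zero
  have hf0 : f ≠ 0 := by
    intro h
    have h1 := hX.ne_zero hfX
    exact h1 h
  obtain ⟨g0, hg0⟩ : ∃ g, cf I g f ≠ 0 := by
    by_contra hcon
    push Not at hcon
    exact hf0 (ext_cf I (fun g => by rw [hcon g, map_zero]))
  have hg0T : g0 ∈ T := hf g0 hg0
  obtain ⟨T0, h1, h2, h3, h4, h5⟩ := exists_finite_conn' hT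
    ((f : MonoidAlgebra K (FreeGroup B)).coeff.support) (by
      intro g hg
      apply hf g
      rw [Finset.mem_coe, Finsupp.mem_support_iff] at hg
      exact hg) g0 hg0T
  have hf' : f ∈ VS I T0 := by
    intro g hg
    apply h5
    rw [Finset.mem_coe, Finsupp.mem_support_iff]
    exact hg
  obtain ⟨Y0, hY0f, hY0S, hY0i, hY0s⟩ := step_one I h1 h2 hf' hX hXs hfX
  have hstart : PP I T T0 f T0 Y0 := ⟨subset_rfl, h3, h1, hY0f, hY0S, hY0i, hY0s⟩
  -- Zorn
  have hz : ∃ m : Set (FreeGroup B) × Set I,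
      Maximal (fun p : Set (FreeGroup B) × Set I => p ∈ {p | PP I T T0 f p.1 p.2}) m := by
    obtain ⟨m, _, hm⟩ := zorn_le_nonempty₀ {p : Set (FreeGroup B) × Set I | PP I T T0 f p.1 p.2}
      (by
        intro c hc hchain y hy
        refine ⟨(⋃ p ∈ c, p.1, ⋃ p ∈ c, p.2), ?_, ?_⟩
        · apply PP_union I c (fun p hp => hc hp) y hy
          intro p hp q hq
          rcases hchain.total hp hq with h | h
          · exact ⟨q, hq, h.1, subset_rfl, h.2, subset_rfl⟩
          · exact ⟨p, hp, subset_rfl, h.1, subset_rfl, h.2⟩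
        · intro p hp
          exact ⟨Set.subset_biUnion_of_mem (u := fun p : Set (FreeGroup B) × Set I => p.1) hp,
            Set.subset_biUnion_of_mem (u := fun p : Set (FreeGroup B) × Set I => p.2) hp⟩)
      (T0, Y0) hstart
    exact ⟨m, hm⟩
  obtain ⟨m, hm⟩ := hz
  have hmP : PP I T T0 f m.1 m.2 := hm.prop
  have hmT : m.1 = T := by
    by_contra hne
    obtain ⟨y, hyT, hym⟩ : ∃ y ∈ T, y ∉ m.1 := by
      by_contra hcon
      push Not at hcon
      exact hne (Set.Subset.antisymm hmP.h2 hcon)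
    obtain ⟨a, ha, t, htT, htm, hat⟩ := exit_edge (hmP.h1 h4) (hT g0 hg0T y hyT) hym
    obtain ⟨Y', hY1, hY2, hY3, hY4⟩ := step_two I hmP.h3 ha htm hat hmP.h5 hmP.h6 hmP.h7
    have hmem : PP I T T0 f (insert t m.1) Y' :=
      ⟨hmP.h1.trans (Set.subset_insert _ _), Set.insert_subset htT hmP.h2, hmP.h3.ins ha hat,
        hY1 hmP.h4, hY2, hY3, hY4⟩
    have hle : m ≤ (insert t m.1, Y') := ⟨Set.subset_insert _ _, hY1⟩
    have := hm.le_of_ge (y := (insert t m.1, Y')) hmem hle
    exact htm (this.1 (Set.mem_insert _ _))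
  refine ⟨m.2, hmP.h4, ?_, hmP.h6, ?_⟩
  · rw [← hmT]; exact hmP.h5
  · rw [hmP.h7, hmT, hI]

end

end Pool.Agent.H241.PST
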