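import Pool.Agent.H241.PST.Word

/-!
Presented subspaces of right modules over the group algebra of a free group.
-/

set_option autoImplicit false
set_option linter.unusedSectionVars false

namespace Pool.Agent.H241.PST

open MulOpposite

noncomputable section

variable {K : Type*} [Field K] {B : Type*}
variable {M : Type*} [AddCommGroup M] [Module (MonoidAlgebra K (FreeGroup B))ᵐᵒᵖ M] [Module K M]
  [IsScalarTower K (MonoidAlgebra K (FreeGroup B))ᵐᵒᵖ M]

/-- Right translation by a group element, on a right module. -/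
def rt (g : FreeGroup B) : M →ₗ[K] M where
  toFun m := (op (MonoidAlgebra.of K (FreeGroup B) g) : (MonoidAlgebra K (FreeGroup B))ᵐᵒᵖ) • m
  map_add' x y := smul_add _ _ _
  map_smul' k x := by
    simp only [RingHom.id_apply]
    rw [smul_comm]

lemma rt_apply (g : FreeGroup B) (m : M) : rt (K := K) g m =
    (op (MonoidAlgebra.of K (FreeGroup B) g) : (MonoidAlgebra K (FreeGroup B))ᵐᵒᵖ) • m := rfl

lemma rt_rt (g h : FreeGroup B) (m : M) : rt (K := K) h (rt (K := K) g m) = rt (K := K) (g * h) m := by
  rw [rt_apply, rt_apply, rt_apply, smul_smul, map_mul, op_mul]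

lemma rt_one (m : M) : rt (K := K) (1 : FreeGroup B) m = m := by
  rw [rt_apply, map_one, op_one, one_smul]

/-- evaluation of formal sums `∑ φ g ⊗ g`. -/
def ev : (FreeGroup B →₀ M) →ₗ[K] M := Finsupp.lsum K (fun g => rt (K := K) g)

lemma ev_single (g : FreeGroup B) (m : M) : ev (K := K) (Finsupp.single g m) = rt (K := K) g m := by
  simp [ev]

lemma ev_apply (φ : FreeGroup B →₀ M) : ev (K := K) φ = φ.sum (fun g m => rt (K := K) g m) := rfl

/-- The short relations of a subspace. -/
def Rel (W : Submodule K M) : Submodule K (FreeGroup B →₀ M) :=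
  Submodule.span K {x | ∃ (s : B × Bool) (g : FreeGroup B) (w : M), w ∈ W ∧
    rt (K := K) (ltr s) w ∈ W ∧
    x = Finsupp.single (ltr s * g) w - Finsupp.single g (rt (K := K) (ltr s) w)}

lemma rel_gen {W : Submodule K M} (s : B × Bool) (g : FreeGroup B) (w : M) (h1 : w ∈ W)
    (h2 : rt (K := K) (ltr s) w ∈ W) :
    Finsupp.single (ltr s * g) w - Finsupp.single g (rt (K := K) (ltr s) w) ∈ Rel W :=
  Submodule.subset_span ⟨s, g, w, h1, h2, rfl⟩

lemma rel_values {W : Submodule K M} {φ : FreeGroup B →₀ M} (h : φ ∈ Rel W) :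
    ∀ g, φ g ∈ W := by
  unfold Rel at h
  induction h using Submodule.span_induction with
  | mem x hx =>
    obtain ⟨s, g, w, h1, h2, rfl⟩ := hx
    intro g'
    classical
    simp only [Finsupp.coe_sub, Pi.sub_apply, Finsupp.single_apply]
    apply W.sub_mem
    · split_ifs
      · exact h1
      · exact W.zero_mem
    · split_ifs
      · exact h2
      · exact W.zero_mem
  | zero => intro g; exact W.zero_mem
  | add x y _ _ hx hy => intro g; exact W.add_mem (hx g) (hy g)
  | smul a x _ hx => intro g; exact W.smul_mem a (hx g)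

variable (B) in
/-- `W` presents the submodule it generates. -/
def Pres (W : Submodule K M) : Prop :=
  ∀ φ : FreeGroup B →₀ M, (∀ g, φ g ∈ W) → ev (K := K) φ = 0 → φ ∈ Rel W

/-- the formal sum `∑ a_g w ⊗ g` -/
def spr (a : (MonoidAlgebra K (FreeGroup B))ᵐᵒᵖ) (w : M) : FreeGroup B →₀ M :=
  a.unop.coeff.mapRange (fun k => k • w) (zero_smul K w)

lemma spr_apply (a : (MonoidAlgebra K (FreeGroup B))ᵐᵒᵖ) (w : M) (g : FreeGroup B) :
    spr a w g = a.unop.coeff g • w := rfl

lemma spr_add (a b : (MonoidAlgebra K (FreeGroup B))ᵐᵒᵖ) (w : M) :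
    spr (a + b) w = spr a w + spr b w := by
  ext g
  simp only [spr_apply, Finsupp.coe_add, Pi.add_apply, unop_add, MonoidAlgebra.coeff_add, add_smul]

lemma spr_single (g : FreeGroup B) (k : K) (w : M) :
    spr (op (MonoidAlgebra.single g k)) w = Finsupp.single g (k • w) := by
  ext h
  classical
  simp only [spr_apply, unop_op, MonoidAlgebra.coeff_single, Finsupp.single_apply]
  split_ifs <;> simp

lemma ev_spr (a : (MonoidAlgebra K (FreeGroup B))ᵐᵒᵖ) (w : M) :
    ev (K := K) (spr a w) = a • w := by
  obtain ⟨a, rfl⟩ := op_surjective a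
  induction a using MonoidAlgebra.induction_linear with
  | zero =>
    have : spr (op (0 : MonoidAlgebra K (FreeGroup B))) w = 0 := by
      ext g; simp [spr_apply]
    rw [this, map_zero, op_zero, zero_smul]
  | add x y hx hy => rw [op_add, spr_add, map_add, hx, hy, add_smul]
  | single g k =>
    rw [spr_single, ev_single, map_smul, rt_apply, ← smul_assoc]
    congr 1
    rw [← op_smul]
    congr 1
    simp [MonoidAlgebra.of_apply]

/-- elements of the submodule generated by `H` are values of `ev` on `H`-valued sums -/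
lemma exists_ev {H : Submodule K M} {x : M}
    (hx : x ∈ Submodule.span (MonoidAlgebra K (FreeGroup B))ᵐᵒᵖ (H : Set M)) :
    ∃ φ : FreeGroup B →₀ M, (∀ g, φ g ∈ H) ∧ ev (K := K) φ = x := by
  induction hx using Submodule.span_induction with
  | mem x hx =>
    refine ⟨Finsupp.single 1 x, ?_, by rw [ev_single, rt_one]⟩
    intro g
    classical
    rw [Finsupp.single_apply]
    split_ifs
    · exact hx
    · exact H.zero_mem
  | zero => exact ⟨0, fun g => H.zero_mem, map_zero _⟩
  | add x y _ _ hx hy =>
    obtain ⟨φ, h1, h2⟩ := hx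
    obtain ⟨ψ, h3, h4⟩ := hy
    exact ⟨φ + ψ, fun g => H.add_mem (h1 g) (h3 g), by rw [map_add, h2, h4]⟩
  | smul a x _ hx =>
    obtain ⟨φ, h1, h2⟩ := hx
    -- expand `a`
    obtain ⟨a, rfl⟩ := op_surjective a
    induction a using MonoidAlgebra.induction_linear with
    | zero => exact ⟨0, fun g => H.zero_mem, by rw [map_zero, op_zero, zero_smul]⟩
    | add a b ha hb =>
      obtain ⟨φa, h3, h4⟩ := ha
      obtain ⟨φb, h5, h6⟩ := hb
      exact ⟨φa + φb, fun g => H.add_mem (h3 g) (h5 g), by rw [map_add, h4, h6, op_add, add_smul]⟩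
    | single g k =>
      refine ⟨k • φ.mapDomain (fun h => h * g), ?_, ?_⟩
      · intro h
        apply H.smul_mem
        have : h = (h * g⁻¹) * g := by group
        rw [this]
        rw [Finsupp.mapDomain_apply (mul_left_injective g)]
        exact h1 _
      · rw [map_smul, ev_apply, Finsupp.sum_mapDomain_index (by intro b; simp) (by intro b m n; simp)]
        rw [← h2, ev_apply, Finsupp.smul_sum]
        have e1 : (op (MonoidAlgebra.single g k) : (MonoidAlgebra K (FreeGroup B))ᵐᵒᵖ) =
            k • op (MonoidAlgebra.of K (FreeGroup B) g) := by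
          rw [← op_smul]; congr 1; simp [MonoidAlgebra.of_apply]
        rw [e1, smul_assoc, ← rt_apply]
        rw [Finsupp.sum, Finsupp.sum, map_sum, Finset.smul_sum]
        apply Finset.sum_congr rfl
        intro x _
        rw [rt_rt]

/-- The hyperplane step. -/
theorem step {W : Submodule K M} (hW : Pres B W) (c : M →ₗ[K] K) (Good : Set (B × Bool))
    (hG : Good.Subsingleton)
    (h1 : ∀ (s : B × Bool) (w : M), w ∈ W → rt (K := K) (ltr s) w ∈ W →
      c (rt (K := K) (ltr s) w) ≠ 0 → s ∈ Good) :
    Pres B (W ⊓ LinearMap.ker c) ∧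
    (Submodule.span (MonoidAlgebra K (FreeGroup B))ᵐᵒᵖ ((W ⊓ LinearMap.ker c : Submodule K M) : Set M)
        = Submodule.span (MonoidAlgebra K (FreeGroup B))ᵐᵒᵖ (W : Set M) ∨
      ∀ w ∈ W, c w ≠ 0 → ∀ a : (MonoidAlgebra K (FreeGroup B))ᵐᵒᵖ,
        a • w ∈ Submodule.span (MonoidAlgebra K (FreeGroup B))ᵐᵒᵖ
          ((W ⊓ LinearMap.ker c : Submodule K M) : Set M) → a = 0) := by
  classical
  set H : Submodule K M := W ⊓ LinearMap.ker c with hH
  have memH : ∀ x, x ∈ H ↔ x ∈ W ∧ c x = 0 := by
    intro x; rw [hH, Submodule.mem_inf, LinearMap.mem_ker]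
  have rtinv : ∀ (s : B × Bool) (w : M), rt (K := K) (ltr (linv s)) (rt (K := K) (ltr s) w) = w := by
    intro s w; rw [rt_rt, ltr_linv, mul_inv_cancel, rt_one]
  have h1' : ∀ (s : B × Bool) (w : M), w ∈ W → rt (K := K) (ltr s) w ∈ W →
      c w ≠ 0 → linv s ∈ Good := by
    intro s w hw hws hc
    apply h1 (linv s) (rt (K := K) (ltr s) w) hws
    · rw [rtinv]; exact hw
    · rw [rtinv]; exact hc
  by_cases hex : ∃ (s : B × Bool) (u : M), u ∈ W ∧ rt (K := K) (ltr s) u ∈ W ∧
      c (rt (K := K) (ltr s) u) ≠ 0
  · -- Case B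
    obtain ⟨s0, u', hu', hus', hcu'⟩ := hex
    have hs0 : s0 ∈ Good := h1 s0 u' hu' hus' hcu'
    -- normalise
    obtain ⟨u, hu, hus, hcu⟩ : ∃ u : M, u ∈ W ∧ rt (K := K) (ltr s0) u ∈ W ∧
        c (rt (K := K) (ltr s0) u) = 1 := by
      refine ⟨(c (rt (K := K) (ltr s0) u'))⁻¹ • u', W.smul_mem _ hu', ?_, ?_⟩
      · rw [map_smul]; exact W.smul_mem _ hus'
      · rw [map_smul, map_smul, smul_eq_mul, inv_mul_cancel₀ hcu']
    have hneq : ∀ s, s ≠ s0 → ∀ w ∈ W, rt (K := K) (ltr s) w ∈ W →
        c (rt (K := K) (ltr s) w) = 0 := by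
      intro s hs w hw hws
      by_contra hc
      exact hs (hG (h1 s w hw hws hc) hs0)
    have hneq' : ∀ s, s ≠ linv s0 → ∀ w ∈ W, rt (K := K) (ltr s) w ∈ W → c w = 0 := by
      intro s hs w hw hws
      by_contra hc
      apply hs
      rw [← hG (h1' s w hw hws hc) hs0, linv_linv]
    have hs00 : s0 ≠ linv s0 := fun h => linv_ne s0 h.symm
    have hcu0 : c u = 0 := hneq' s0 hs00 u hu hus
    set w0 : M := rt (K := K) (ltr s0) u with hw0
    have huH : u ∈ H := (memH u).2 ⟨hu, hcu0⟩
    -- the rewriting map
    let ρ : (FreeGroup B →₀ M) →ₗ[K] (FreeGroup B →₀ M) :=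
      Finsupp.lsum K (fun g =>
        (Finsupp.lsingle g).comp (LinearMap.id - (LinearMap.toSpanSingleton K M w0).comp c) +
        (Finsupp.lsingle (ltr s0 * g)).comp ((LinearMap.toSpanSingleton K M u).comp c))
    have ρ_single : ∀ g m, ρ (Finsupp.single g m) =
        Finsupp.single g (m - c m • w0) + Finsupp.single (ltr s0 * g) (c m • u) := by
      intro g m
      simp only [ρ, Finsupp.lsum_single]
      rfl
    have ρ_H : ∀ φ : FreeGroup B →₀ M, (∀ g, φ g ∈ H) → ρ φ = φ := by
      intro φ hφ
      conv_rhs => rw [← Finsupp.sum_single φ]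
      conv_lhs => rw [← Finsupp.sum_single φ]
      rw [Finsupp.sum, map_sum]
      apply Finset.sum_congr rfl
      intro g _
      rw [ρ_single, ((memH _).1 (hφ g)).2]
      simp
    have ρ_Rel : ∀ φ ∈ Rel W, ρ φ ∈ Rel H := by
      intro φ hφ
      unfold Rel at hφ
      induction hφ using Submodule.span_induction with
      | zero => rw [map_zero]; exact Submodule.zero_mem _
      | add x y _ _ hx hy => rw [map_add]; exact Submodule.add_mem _ hx hy
      | smul a x _ hx => rw [map_smul]; exact Submodule.smul_mem _ _ hx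
      | mem x hx =>
        obtain ⟨s, g, w, hw, hws, rfl⟩ := hx
        rw [map_sub, ρ_single, ρ_single]
        by_cases hs1 : s = s0
        · subst hs1
          have hcw : c w = 0 := hneq' s hs00 w hw hws
          set k := c (rt (K := K) (ltr s) w) with hk
          have e : Finsupp.single (ltr s * g) (w - c w • w0) +
              Finsupp.single (ltr s * (ltr s * g)) (c w • u) -
              (Finsupp.single g (rt (K := K) (ltr s) w - k • w0) +
                Finsupp.single (ltr s * g) (k • u)) =
              Finsupp.single (ltr s * g) (w - k • u) -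
                Finsupp.single g (rt (K := K) (ltr s) (w - k • u)) := by
            rw [hcw, zero_smul, zero_smul, sub_zero, Finsupp.single_zero, add_zero, map_sub,
              map_smul, ← hw0]
            simp only [Finsupp.single_sub]
            abel
          rw [e]
          apply rel_gen
          · rw [memH]
            exact ⟨W.sub_mem hw (W.smul_mem _ hu), by rw [map_sub, map_smul, hcw, hcu0]; simp⟩
          · rw [memH, map_sub, map_smul, ← hw0]
            exact ⟨W.sub_mem hws (W.smul_mem _ hus), by rw [map_sub, map_smul, hcu, ← hk]; simp⟩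
        · by_cases hs2 : s = linv s0
          · subst hs2
            have hcws : c (rt (K := K) (ltr (linv s0)) w) = 0 := hneq _ hs1 w hw hws
            set k := c w with hk
            have hw1 : rt (K := K) (ltr (linv s0)) w0 = u := by rw [hw0, rtinv]
            have e : Finsupp.single (ltr (linv s0) * g) (w - k • w0) +
                Finsupp.single (ltr s0 * (ltr (linv s0) * g)) (k • u) -
                (Finsupp.single g (rt (K := K) (ltr (linv s0)) w -
                    c (rt (K := K) (ltr (linv s0)) w) • w0) +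
                  Finsupp.single (ltr s0 * g) (c (rt (K := K) (ltr (linv s0)) w) • u)) =
                Finsupp.single (ltr (linv s0) * g) (w - k • w0) -
                  Finsupp.single g (rt (K := K) (ltr (linv s0)) (w - k • w0)) := by
              have e2 : ltr s0 * (ltr (linv s0) * g) = g := by rw [ltr_linv]; group
              rw [hcws, zero_smul, zero_smul, sub_zero, Finsupp.single_zero, add_zero, map_sub,
                map_smul, hw1, e2]
              rw [Finsupp.single_sub (a := g)]
              abel
            rw [e]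
            apply rel_gen
            · rw [memH]
              exact ⟨W.sub_mem hw (W.smul_mem _ hus), by rw [map_sub, map_smul, hcu, ← hk]; simp⟩
            · rw [memH, map_sub, map_smul, hw1]
              exact ⟨W.sub_mem hws (W.smul_mem _ hu), by rw [map_sub, map_smul, hcws, hcu0]; simp⟩
          · have hcw : c w = 0 := hneq' s hs2 w hw hws
            have hcws : c (rt (K := K) (ltr s) w) = 0 := hneq s hs1 w hw hws
            rw [hcw, hcws]
            simp only [zero_smul, sub_zero, Finsupp.single_zero, add_zero]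
            exact rel_gen s g w ((memH _).2 ⟨hw, hcw⟩) ((memH _).2 ⟨hws, hcws⟩)
    refine ⟨?_, Or.inl ?_⟩
    · intro φ hφ hev
      have h2 : φ ∈ Rel W := hW φ (fun g => ((memH _).1 (hφ g)).1) hev
      have h3 := ρ_Rel φ h2
      rwa [ρ_H φ hφ] at h3
    · apply le_antisymm
      · exact Submodule.span_mono (fun x hx => ((memH x).1 hx).1)
      · rw [Submodule.span_le]
        intro x hx
        have hx' : x - c x • w0 ∈ H := by
          rw [memH]
          exact ⟨W.sub_mem hx (W.smul_mem _ hus), by rw [map_sub, map_smul, hcu]; simp⟩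
        have hw0S : w0 ∈ Submodule.span (MonoidAlgebra K (FreeGroup B))ᵐᵒᵖ (H : Set M) := by
          rw [hw0, rt_apply]
          exact Submodule.smul_mem _ _ (Submodule.subset_span huH)
        have : x = (x - c x • w0) + c x • w0 := by abel
        rw [this]
        apply Submodule.add_mem _ (Submodule.subset_span hx')
        have e : c x • w0 = (c x • (1 : (MonoidAlgebra K (FreeGroup B))ᵐᵒᵖ)) • w0 := by
          rw [smul_assoc, one_smul]
        rw [e]
        exact Submodule.smul_mem _ _ hw0S
  · -- Case A
    push Not at hex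
    have hex' : ∀ (s : B × Bool) (w : M), w ∈ W → rt (K := K) (ltr s) w ∈ W → c w = 0 := by
      intro s w hw hws
      have := hex (linv s) (rt (K := K) (ltr s) w) hws (by rw [rtinv]; exact hw)
      rwa [rtinv] at this
    have hRel : (Rel W : Submodule K (FreeGroup B →₀ M)) ≤ Rel H := by
      unfold Rel
      apply Submodule.span_mono
      rintro x ⟨s, g, w, hw, hws, rfl⟩
      exact ⟨s, g, w, (memH _).2 ⟨hw, hex' s w hw hws⟩, (memH _).2 ⟨hws, hex s w hw hws⟩, rfl⟩
    refine ⟨?_, Or.inr ?_⟩
    · intro φ hφ hev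
      exact hRel (hW φ (fun g => ((memH _).1 (hφ g)).1) hev)
    · intro w hw hcw a ha
      obtain ⟨φ, hφ, hev⟩ := exists_ev (K := K) ha
      have h2 : spr a w - φ ∈ Rel W := by
        apply hW
        · intro g
          rw [Finsupp.coe_sub, Pi.sub_apply, spr_apply]
          exact W.sub_mem (W.smul_mem _ hw) ((memH _).1 (hφ g)).1
        · rw [map_sub, ev_spr, hev, sub_self]
      have h3 := rel_values (hRel h2)
      have h4 : ∀ g, a.unop.coeff g = 0 := by
        intro g
        have h5 := ((memH _).1 (h3 g)).2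
        rw [Finsupp.coe_sub, Pi.sub_apply, spr_apply, map_sub, ((memH _).1 (hφ g)).2, sub_zero,
          map_smul, smul_eq_mul] at h5
        exact (mul_eq_zero.mp h5).resolve_right hcw
      apply unop_injective
      ext g
      rw [h4 g]; rfl

end

end Pool.Agent.H241.PST
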