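import Mathlib

/-!
Word combinatorics in a free group, used for `MP_1698af_al`.
-/

set_option autoImplicit false

namespace Pool.Agent.H241.PST

open FreeGroup

variable {B : Type*} [DecidableEq B]

/-- The inverse of a letter. -/
def linv (x : B × Bool) : B × Bool := (x.1, !x.2)

omit [DecidableEq B] in
@[simp] lemma linv_linv (x : B × Bool) : linv (linv x) = x := by
  simp [linv]

omit [DecidableEq B] in
lemma linv_ne (x : B × Bool) : linv x ≠ x := by
  intro h
  have := congrArg Prod.snd h
  simp [linv] at this

/-- A letter as an element of the free group. -/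
def ltr (x : B × Bool) : FreeGroup B := FreeGroup.mk [x]

omit [DecidableEq B] in
lemma ltr_linv (x : B × Bool) : ltr (linv x) = (ltr x)⁻¹ := by
  simp [ltr, linv, FreeGroup.inv_mk, FreeGroup.invRev]

lemma ltr_toWord (x : B × Bool) : (ltr x).toWord = [x] := by
  simp [ltr, FreeGroup.toWord_mk]

lemma ltr_inj {x y : B × Bool} (h : ltr x = ltr y) : x = y := by
  have := congrArg FreeGroup.toWord h
  rw [ltr_toWord, ltr_toWord] at this
  simpa using this

lemma mul_ltr (p : FreeGroup B) (x : B × Bool) :
    (p * ltr x).toWord = p.toWord ++ [x] ∨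
      ∃ L', p.toWord = L' ++ [linv x] ∧ (p * ltr x).toWord = L' := by
  rcases List.eq_nil_or_concat p.toWord with h | ⟨L', y, h⟩
  · left
    have hp : p = 1 := FreeGroup.toWord_eq_nil_iff.mp h
    subst hp
    simp [ltr_toWord]
  · rw [List.concat_eq_append] at h
    have hred : FreeGroup.IsReduced (L' ++ [y]) := by
      rw [← h]; exact FreeGroup.isReduced_toWord
    by_cases hy : y = linv x
    · right
      refine ⟨L', by rw [h, hy], ?_⟩
      have hp : p = FreeGroup.mk (L' ++ [linv x]) := by
        rw [← hy, ← h, FreeGroup.mk_toWord]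
      have h2 : p * ltr x = FreeGroup.mk L' := by
        have : FreeGroup.mk (L' ++ [linv x]) = FreeGroup.mk L' * ltr (linv x) := by
          rw [ltr, FreeGroup.mul_mk]
        rw [hp, this, ltr_linv]
        group
      rw [h2, FreeGroup.toWord_mk]
      exact (show FreeGroup.IsReduced L' from (List.isChain_append.mp hred).1).reduce_eq
    · left
      have h2 : p * ltr x = FreeGroup.mk (L' ++ [y] ++ [x]) := by
        rw [← FreeGroup.mul_mk, ← h, FreeGroup.mk_toWord, ltr]
      rw [h2, FreeGroup.toWord_mk, h]
      apply FreeGroup.IsReduced.reduce_eq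
      apply FreeGroup.IsReduced.append_overlap hred _ (by simp)
      simp only [List.cons_append, List.nil_append, FreeGroup.isReduced_cons_cons]
      refine ⟨?_, FreeGroup.IsReduced.singleton⟩
      intro h1
      by_contra h3
      apply hy
      ext
      · exact h1
      · simp only [linv]
        revert h3
        cases y.2 <;> cases x.2 <;> simp

lemma inv_toWord_nil {p : FreeGroup B} : p.toWord = [] ↔ p = 1 := FreeGroup.toWord_eq_nil_iff

/-- right multiplication by a letter can only shorten a word in one way -/
lemma norm_mul_ltr_le {g : FreeGroup B} {x : B × Bool} (h : (g * ltr x).norm ≤ g.norm) :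
    ∃ L', g.toWord = L' ++ [linv x] := by
  rcases mul_ltr g x with h1 | ⟨L', h1, h2⟩
  · exfalso
    simp only [FreeGroup.norm, h1, List.length_append, List.length_singleton] at h
    omega
  · exact ⟨L', h1⟩

lemma unique_short {g : FreeGroup B} {x y : B × Bool} (hx : (g * ltr x).norm ≤ g.norm)
    (hy : (g * ltr y).norm ≤ g.norm) : x = y := by
  obtain ⟨L1, h1⟩ := norm_mul_ltr_le hx
  obtain ⟨L2, h2⟩ := norm_mul_ltr_le hy
  rw [h1] at h2
  have h3 := List.append_inj_right' h2 (by simp)
  have h4 : linv x = linv y := by simpa using h3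
  have := congrArg linv h4
  simpa using this

/-- The first letter of a word survives right multiplication by a letter unless
the word is that letter. -/
lemma head_mul {p : FreeGroup B} {x s : B × Bool} (h : p.toWord.head? = some s) :
    (p * ltr x).toWord.head? = some s ∨ (p = ltr s ∧ x = linv s) := by
  rcases mul_ltr p x with h1 | ⟨L', h1, h2⟩
  · left
    rw [h1]
    rcases hp : p.toWord with _ | ⟨a, l⟩
    · rw [hp] at h; simp at h
    · rw [hp] at h; simpa using h
  · rcases L' with _ | ⟨a, l⟩
    · right
      rw [h1] at h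
      simp only [List.nil_append, List.head?_cons, Option.some.injEq] at h
      have hx : x = linv s := by rw [← h]; simp
      refine ⟨?_, hx⟩
      apply FreeGroup.toWord_injective
      rw [h1, ltr_toWord, h]; simp
    · left
      rw [h2]
      rw [h1] at h
      simpa using h

/-- If `g` starts with `s` and `g''` is different from `g` and not longer, then
`g * g''⁻¹` starts with `s`. -/
lemma head_diff {g g'' : FreeGroup B} {s : B × Bool} {u : List (B × Bool)}
    (hg : g.toWord = s :: u) (hne : g'' ≠ g) (hn : g''.norm ≤ g.norm) :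
    (g * g''⁻¹).toWord.head? = some s := by
  have key : ∀ v : List (B × Bool), FreeGroup.IsReduced v → ¬ (s :: u) <:+ v →
      (g * (FreeGroup.mk v)⁻¹).toWord.head? = some s := by
    intro v
    induction v with
    | nil =>
      intro _ _
      have : (FreeGroup.mk ([] : List (B × Bool))) = 1 := rfl
      rw [this, inv_one, mul_one, hg]; rfl
    | cons y v ih =>
      intro hr hs
      have hr' : FreeGroup.IsReduced v := List.IsChain.tail hr
      have hs' : ¬ (s :: u) <:+ v := fun h => hs (h.trans (List.suffix_cons y v))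
      have h1 := ih hr' hs'
      have h2 : g * (FreeGroup.mk (y :: v))⁻¹ = (g * (FreeGroup.mk v)⁻¹) * ltr (linv y) := by
        have : FreeGroup.mk (y :: v) = ltr y * FreeGroup.mk v := by
          rw [ltr, FreeGroup.mul_mk]; rfl
        rw [this, ltr_linv]; group
      rw [h2]
      rcases head_mul (x := linv y) h1 with h3 | ⟨h3, h4⟩
      · exact h3
      · exfalso
        have hys : y = s := by
          have := congrArg linv h4; simpa using this
        have hgw : g = FreeGroup.mk (s :: v) := by
          have : FreeGroup.mk (s :: v) = ltr s * FreeGroup.mk v := by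
            rw [ltr, FreeGroup.mul_mk]; rfl
          rw [this, ← h3]; group
        have hw : g.toWord = s :: v := by
          rw [hgw, FreeGroup.toWord_mk]
          rw [hys] at hr
          exact hr.reduce_eq
        apply hs
        rw [← hg, hw, hys]
  have h := key g''.toWord FreeGroup.isReduced_toWord ?_
  · rwa [FreeGroup.mk_toWord] at h
  · intro hsuf
    have hlen := hsuf.length_le
    rw [← hg] at hlen hsuf
    have heq : g.toWord = g''.toWord := hsuf.eq_of_length (le_antisymm hlen hn)
    exact hne (FreeGroup.toWord_injective heq).symm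

/-- Adjacency in the right Cayley graph, by letters. -/
def Adj' (x y : FreeGroup B) : Prop := ∃ s : B × Bool, y = x * ltr s

omit [DecidableEq B] in
lemma Adj'.symm {x y : FreeGroup B} (h : Adj' x y) : Adj' y x := by
  obtain ⟨s, rfl⟩ := h
  exact ⟨linv s, by rw [ltr_linv]; group⟩

/-- `S` is connected in the right Cayley graph. -/
def Conn (S : Set (FreeGroup B)) : Prop :=
  ∀ x ∈ S, ∀ y ∈ S, Relation.ReflTransGen (fun a b => b ∈ S ∧ Adj' a b) x y

/-- Connected sets of vertices of the Cayley tree are convex (one-step form). -/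
lemma Conn.convex {S : Set (FreeGroup B)} (hS : Conn S) {x y : FreeGroup B} (hx : x ∈ S)
    (hy : y ∈ S) {s : B × Bool} (h : (x⁻¹ * y).toWord.head? = some s) : x * ltr s ∈ S := by
  have hxy := hS x hx y hy
  clear hy
  induction hxy with
  | refl => simp at h
  | @tail b c hab hbc ih =>
    obtain ⟨hc, t, rfl⟩ := hbc
    have e : x⁻¹ * b = (x⁻¹ * (b * ltr t)) * ltr (linv t) := by rw [ltr_linv]; group
    rcases head_mul (x := linv t) h with h1 | ⟨h1, h2⟩
    · rw [← e] at h1
      exact ih h1
    · have : x * ltr s = b * ltr t := by rw [← h1]; group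
      rw [this]; exact hc

omit [DecidableEq B] in
lemma Conn.ins {S : Set (FreeGroup B)} (hS : Conn S) {a t : FreeGroup B} (ha : a ∈ S)
    (hat : Adj' a t) : Conn (insert t S) := by
  have mono : ∀ x y, Relation.ReflTransGen (fun a b => b ∈ S ∧ Adj' a b) x y →
      Relation.ReflTransGen (fun a b => b ∈ insert t S ∧ Adj' a b) x y := by
    intro x y h
    exact Relation.ReflTransGen.mono (r := fun a b => b ∈ S ∧ Adj' a b)
      (p := fun a b => b ∈ insert t S ∧ Adj' a b)
      (fun a b hab => ⟨Set.mem_insert_of_mem _ hab.1, hab.2⟩) x y h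
  have toT : ∀ x ∈ S, Relation.ReflTransGen (fun a b => b ∈ insert t S ∧ Adj' a b) x t := by
    intro x hx
    exact (mono x a (hS x hx a ha)).tail ⟨Set.mem_insert _ _, hat⟩
  have fromT : ∀ x ∈ S, Relation.ReflTransGen (fun a b => b ∈ insert t S ∧ Adj' a b) t x := by
    intro x hx
    exact (Relation.ReflTransGen.single ⟨Set.mem_insert_of_mem _ ha, hat.symm⟩).trans
      (mono a x (hS a ha x hx))
  intro x hx y hy
  rcases hx with rfl | hx
  · rcases hy with rfl | hy
    · exact Relation.ReflTransGen.refl
    · exact fromT y hy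
  · rcases hy with rfl | hy
    · exact toT x hx
    · exact mono x y (hS x hx y hy)

omit [DecidableEq B] in
/-- exit edge of a path leaving a set -/
lemma exit_edge {T S : Set (FreeGroup B)} {x y : FreeGroup B} (hx : x ∈ S)
    (h : Relation.ReflTransGen (fun a b => b ∈ T ∧ Adj' a b) x y) (hy : y ∉ S) :
    ∃ a ∈ S, ∃ t ∈ T, t ∉ S ∧ Adj' a t := by
  induction h with
  | refl => exact absurd hx hy
  | @tail b c hab hbc ih =>
    by_cases hb : b ∈ S
    · exact ⟨b, hb, c, hbc.1, hy, hbc.2⟩
    · exact ih hb

/-- finite connected enlargements -/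
lemma exists_finite_conn {T : Set (FreeGroup B)} {x y : FreeGroup B}
    (h : Relation.ReflTransGen (fun a b => b ∈ T ∧ Adj' a b) x y)
    (S : Set (FreeGroup B)) (hS : Conn S) (hf : S.Finite) (hST : S ⊆ T) (hx : x ∈ S) :
    ∃ S' : Set (FreeGroup B), Conn S' ∧ S'.Finite ∧ S ⊆ S' ∧ S' ⊆ T ∧ y ∈ S' := by
  induction h with
  | refl => exact ⟨S, hS, hf, subset_rfl, hST, hx⟩
  | @tail b c hab hbc ih =>
    obtain ⟨S', h1, h2, h3, h4, h5⟩ := ih
    exact ⟨insert c S', h1.ins h5 hbc.2, h2.insert c, h3.trans (Set.subset_insert _ _),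
      Set.insert_subset hbc.1 h4, Set.mem_insert _ _⟩

lemma exists_finite_conn' {T : Set (FreeGroup B)} (hT : Conn T) (P : Finset (FreeGroup B))
    (hP : (P : Set (FreeGroup B)) ⊆ T) (x : FreeGroup B) (hx : x ∈ T) :
    ∃ S : Set (FreeGroup B), Conn S ∧ S.Finite ∧ S ⊆ T ∧ x ∈ S ∧ (P : Set (FreeGroup B)) ⊆ S := by
  classical
  induction P using Finset.induction_on with
  | empty =>
    refine ⟨{x}, ?_, Set.finite_singleton x, by simpa using hx, rfl, by simp⟩
    intro a ha b hb
    rw [Set.mem_singleton_iff] at ha hb
    rw [ha, hb]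
  | @insert a P haP ih =>
    obtain ⟨S, h1, h2, h3, h4, h5⟩ := ih (fun z hz => hP (by simp [hz]))
    have ha : a ∈ T := hP (by simp)
    obtain ⟨S', g1, g2, g3, g4, g5⟩ := exists_finite_conn (hT x hx a ha) S h1 h2 h3 h4
    refine ⟨S', g1, g2, g4, g3 h4, ?_⟩
    intro z hz
    simp only [Finset.coe_insert, Set.mem_insert_iff] at hz
    rcases hz with rfl | hz
    · exact g5
    · exact g3 (h5 hz)

/-- a vertex outside a connected set has at most one neighbour in it -/
lemma unique_nbr {S : Set (FreeGroup B)} (hS : Conn S) {t : FreeGroup B} (ht : t ∉ S)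
    {x y : B × Bool} (hx : t * ltr x ∈ S) (hy : t * ltr y ∈ S) : x = y := by
  by_contra hne
  have h1 : ((t * ltr x)⁻¹ * (t * ltr y)) = ltr (linv x) * ltr y := by
    rw [ltr_linv]; group
  have h2 : (ltr (linv x)).toWord.head? = some (linv x) := by rw [ltr_toWord]; rfl
  have h3 : (ltr (linv x) * ltr y).toWord.head? = some (linv x) := by
    rcases head_mul (x := y) h2 with h | ⟨_, h⟩
    · exact h
    · exfalso; apply hne; rw [h]; simp
  rw [← h1] at h3
  have := hS.convex hx hy h3
  apply ht
  have e : t * ltr x * ltr (linv x) = t := by rw [ltr_linv]; group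
  rwa [e] at this

end Pool.Agent.H241.PST
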